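import Mathlib
import Pool.Agent.H.MP_aab88c_gt.Main
import Pool.Agent.H.MP_4977a6_gt.Main
set_option autoImplicit false
namespace Pool.Agent.H.MP_24cde2_gt
open Set Topology Filter Finsupp Pointwise Pool.Agent.H.MP_aab88c_gt
universe u

def Free {X V : Type u} [TopologicalSpace X] [AddCommGroup V] [Module ℝ V]
    [TopologicalSpace V] (i : X → V) : Prop :=
  IsTopologicalAddGroup V ∧ ContinuousSMul ℝ V ∧ Continuous i ∧
    ∀ (E : Type u) [AddCommGroup E] [Module ℝ E] [TopologicalSpace E] [IsTopologicalAddGroup E]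
      [ContinuousSMul ℝ E] (f : X → E), Continuous f → ∃! g : V →L[ℝ] E, ∀ x, g (i x) = f x

def sp {X V : Type u} [AddCommGroup V] [Module ℝ V] (i : X → V) (n : ℕ) : Set V :=
  {v | ∃ (l : Fin n → ℝ) (x : Fin n → X), (∀ j, |l j| ≤ n) ∧ v = ∑ j, l j • i (x j)}

lemma big {X : Type u} [MetricSpace X] {ι : Type*} (d : ι → X)
    (h : ∀ x, ∃ U ∈ 𝓝 x, {k | d k ∈ U}.Finite) (r : ι → ℝ) :
    ∃ f : C(X, ℝ), (∀ x, 0 ≤ f x) ∧ ∀ k, r k ≤ f (d k) := by
  obtain ⟨f, hf⟩ := exists_continuous_forall_mem_convex_of_local_const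
    (t := fun y => Ici (0 : ℝ) ∩ ⋂ k ∈ {k | d k = y}, Ici (r k))
    (fun y => (convex_Ici _).inter (convex_iInter₂ fun _ _ => convex_Ici _)) fun x => by
      obtain ⟨U, hU, h⟩ := h x
      obtain ⟨c, hc⟩ := (h.image r).bddAbove
      refine ⟨max 0 c, mem_of_superset hU fun y hy => ⟨mem_Ici.2 (le_max_left _ _), mem_iInter₂.2 ?_⟩⟩
      rintro k rfl
      exact le_max_of_le_right (hc ⟨k, hy, rfl⟩)
  exact ⟨f, fun x => (hf x).1, fun k => mem_iInter₂.1 (hf (d k)).2 k rfl⟩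

lemma sep {X : Type u} [MetricSpace X] (h : ¬ SecondCountableTopology X) :
    ∃ x : MP_4977a6_gt.W → X, ∀ z, ∃ U ∈ 𝓝 z, {k | x k ∈ U}.Finite := by
  by_contra! H
  refine h (Metric.secondCountable_of_almost_dense_set fun ε hε => ?_)
  obtain ⟨s, hs⟩ := zorn_subset {s : Set X | s.Pairwise fun x y => ε < dist x y} fun c h1 h2 =>
    ⟨⋃₀ c, h2.pairwise_sUnion.2 h1, fun _ => subset_sUnion_of_mem⟩
  refine ⟨s, by_contra fun h1 => ?_, fun x => by_contra fun h1 => ?_⟩
  · rw [← Cardinal.le_aleph0_iff_set_countable, not_le, ← Order.succ_le_iff, Cardinal.succ_aleph0,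
      ← Cardinal.lift_le.{0}, Cardinal.lift_aleph, Ordinal.lift_one] at h1
    obtain ⟨e⟩ : Nonempty (MP_4977a6_gt.W ↪ s) := Cardinal.lift_mk_le'.1 (by simpa using h1)
    obtain ⟨z, hz⟩ := H fun k => e k
    refine hz _ (Metric.ball_mem_nhds z (half_pos hε)) (Set.Subsingleton.finite fun a ha b hb => ?_)
    by_contra h2
    have := hs.prop (e a).2 (e b).2 (Subtype.val_injective.ne (e.injective.ne h2))
    linarith [dist_triangle_right (e a).1 (e b).1 z, Metric.mem_ball.1 ha, Metric.mem_ball.1 hb]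
  · push Not at h1
    have := hs.eq_of_subset (t := insert x s) (pairwise_insert.2
      ⟨hs.prop, fun y hy _ => ⟨h1 y hy, dist_comm x y ▸ h1 y hy⟩⟩) (subset_insert _ _)
    simpa using (h1 x (this ▸ mem_insert _ _)).trans' hε

variable {X V : Type u} [MetricSpace X] [AddCommGroup V] [Module ℝ V] [TopologicalSpace V]
  {i : X → V}

lemma mem2 (i : X → V) (x y : X) {a b : ℝ} (ha : |a| ≤ 2) (hb : |b| ≤ 2) :
    a • i x + b • i y ∈ sp i 2 :=
  ⟨![a, b], ![x, y], by simp [ha, hb], by simp⟩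

lemma Free.fn (h : Free i) (f : C(X, ℝ)) : ∃ φ : V →L[ℝ] ℝ, ∀ x, φ (i x) = f x := by
  obtain ⟨φ, h1, -⟩ := h.2.2.2 (ULift.{u} ℝ) (fun x => ⟨f x⟩) (continuous_uliftUp.comp f.continuous)
  exact ⟨(ContinuousLinearEquiv.ulift : ULift.{u} ℝ ≃L[ℝ] ℝ).toContinuousLinearMap.comp φ,
    fun x => congrArg ULift.down (h1 x)⟩

lemma Free.surj (h : Free i) : Function.Surjective (linearCombination ℝ i) := by
  obtain ⟨_, _, h3, h4⟩ := h
  rw [← LinearMap.range_eq_top, ← Submodule.ker_mkQ (LinearMap.range _), LinearMap.ker_eq_top]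
  have := (h4 (V ⧸ (linearCombination ℝ i).range) 0 continuous_zero).unique
    (y₁ := Submodule.mkQL _) (y₂ := 0) (fun y => (Submodule.Quotient.mk_eq_zero _).2
      (LinearMap.mem_range.2 ⟨single y 1, by simp⟩)) fun _ => rfl
  exact congrArg ContinuousLinearMap.toLinearMap this

lemma Free.t2 (h : Free i) : T2Space V := by
  choose φ hφ using h.fn
  refine .of_injective_continuous (f := fun v f => φ f v) (fun v w hvw => ?_) (by fun_prop)
  obtain ⟨z, hz⟩ := h.surj (v - w)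
  rw [← sub_eq_zero, ← hz, show z = 0 from ?_, map_zero]
  ext x
  obtain ⟨f, h1, h2, -⟩ := exists_continuous_zero_one_of_isClosed
    (z.support.finite_toSet.subset (diff_subset (t := {x}))).isClosed isClosed_singleton
    disjoint_sdiff_left
  have h3 : φ f (linearCombination ℝ i z) = 0 := by
    rw [hz, map_sub, sub_eq_zero]
    exact congrFun hvw f
  rw [linearCombination_apply, map_finsuppSum, Finsupp.sum_eq_single x
    (fun y h4 h5 => by simp [hφ, h1 ⟨mem_support_iff.2 h4, h5⟩]) (by simp)] at h3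
  simpa [hφ, h2 rfl] using h3

lemma Free.notk (h : Free i) {Z : Set V} {ι : Type*} (a : ι → V) (p : V) (h1 : ∀ k, a k ∈ Z)
    (h2 : p ∈ Z) (h3 : p ∈ closure (range a)) (h4 : p ∉ range a)
    (h5 : ∀ B : Set ι, B.Infinite → ∃ φ : V →L[ℝ] ℝ, ¬ BddAbove (φ '' (a '' B))) :
    ¬ CompactlyCoherentSpace Z := by
  intro _
  have := h.t2
  have h6 : IsClosed ((↑) ⁻¹' range a : Set Z) := by
    refine (CompactlyCoherentSpace.isClosed_iff _).2 fun K hK => Finite.isClosed ?_
    have h6 := hK.image continuous_subtype_val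
    have h7 : {k | a k ∈ (↑) '' K}.Finite := by_contra fun h7 => by
      obtain ⟨φ, h8⟩ := h5 _ h7
      exact h8 ((h6.image φ.continuous).bddAbove.mono (image_mono (image_subset_iff.2 fun _ h => h)))
    refine ((h7.image a).preimage (Subtype.val_injective.comp Subtype.val_injective).injOn).subset ?_
    rintro z ⟨k, hk⟩
    exact ⟨k, ⟨z, z.2, hk.symm⟩, hk⟩
  refine h4 (h6.closure_subset (a := ⟨p, h2⟩) (closure_subtype.2 ?_))
  rwa [image_preimage_eq_of_subset (by rw [Subtype.range_coe]; exact range_subset_iff.2 h1)]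

lemma Free.small (h : Free i) {U : Set V} (hU : U ∈ 𝓝 0) (x : X) :
    ∃ n : ℕ, ∀ m ≥ n, (1 / ((m : ℝ) + 1)) • i x ∈ U := by
  obtain ⟨_, _, -⟩ := h
  have := (tendsto_one_div_add_atTop_nhds_zero_nat (𝕜 := ℝ)).smul_const (i x)
  rw [zero_smul] at this
  exact eventually_atTop.1 (this hU)

lemma Free.nonsep (h : Free i) (hX : ¬ SecondCountableTopology X) :
    ∃ (ι : Type) (a : ι → V), (∀ k, a k ∈ sp i 2) ∧ 0 ∈ closure (range a) ∧
      ∀ C : Set ι, C.Countable → ∃ (φ : V →L[ℝ] ℝ) (g : ι → ℕ), (∀ m, {k ∈ C | g k ≤ m}.Finite) ∧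
        ∀ k ∈ C, (g k : ℝ) + 1 ≤ φ (a k) := by
  obtain ⟨x, hx⟩ := sep hX
  choose e he using fun b => countable_iff_exists_injOn.1 (MP_4977a6_gt.W_Iic b)
  have he' (b m) : {a | a ≤ b ∧ e b a ≤ m}.Finite :=
    .of_finite_image ((finite_Iic m).subset (by rintro _ ⟨a, h, rfl⟩; exact h.2))
      ((he b).mono fun _ h => h.1)
  have ht (m : ℕ) : |1 / ((m : ℝ) + 1)| ≤ 2 := by
    rw [abs_of_pos Nat.one_div_pos_of_nat, div_le_iff₀ (by positivity)]
    linarith [Nat.cast_nonneg (α := ℝ) m]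
  refine ⟨_, fun p : MP_4977a6_gt.W × MP_4977a6_gt.W => (1 / ((e p.2 p.1 : ℝ) + 1)) • i (x p.1) +
    (1 / ((e p.2 p.1 : ℝ) + 1)) • i (x p.2), fun p => mem2 i _ _ (ht _) (ht _),
    mem_closure_iff_nhds.2 fun U hU => ?_, fun C hC => ?_⟩
  · have := h.1
    obtain ⟨U', h1, h2⟩ := exists_nhds_zero_half hU
    choose n hn using fun k => h.small h1 (x k)
    have : Uncountable MP_4977a6_gt.W := ⟨fun _ => by
      obtain ⟨b, hb⟩ := MP_4977a6_gt.W_bdd countable_univ
      exact (hb b trivial).false⟩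
    obtain ⟨m, hm⟩ : ∃ m, {k | n k = m}.Infinite := by
      by_contra! hm
      exact not_countable_univ ((countable_iUnion fun m => (hm m).countable).mono
        fun k _ => mem_iUnion.2 ⟨n k, rfl⟩)
    obtain ⟨I, h3, h4, h5⟩ := hm.exists_subset_countable_infinite
    obtain ⟨b, hb⟩ := MP_4977a6_gt.W_bdd h4
    obtain ⟨a, h6, h7⟩ := h5.exists_notMem_finite (he' b (max m (n b)))
    have h8 := (not_le.1 fun h => h7 ⟨(hb a h6).le, h⟩).le
    exact ⟨_, h2 _ (hn a _ (h3 h6 ▸ le_of_max_le_left h8)) _ (hn b _ (le_of_max_le_right h8)),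
      (a, b), rfl⟩
  · obtain ⟨δ, hδ⟩ := MP_4977a6_gt.W_bdd ((hC.image Prod.fst).union (hC.image Prod.snd))
    choose r hr using fun c => (((he' δ (e δ c)).image fun a =>
      ((e δ c : ℝ) + 1) * (e c a + 1)).union ((he' δ (e δ c)).image fun a =>
      ((e δ c : ℝ) + 1) * (e a c + 1))).bddAbove
    obtain ⟨f, h1, h2⟩ := big x hx r
    obtain ⟨φ, hφ⟩ := h.fn f
    have h3 (p) (hp : p ∈ C) : p.1 ≤ δ ∧ p.2 ≤ δ :=
      ⟨(hδ _ (Or.inl ⟨p, hp, rfl⟩)).le, (hδ _ (Or.inr ⟨p, hp, rfl⟩)).le⟩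
    refine ⟨φ, fun p => max (e δ p.1) (e δ p.2), fun m => ((he' δ m).prod (he' δ m)).subset
      fun p hp => ⟨⟨(h3 p hp.1).1, le_of_max_le_left hp.2⟩, (h3 p hp.1).2, le_of_max_le_right hp.2⟩,
      fun p hp => ?_⟩
    simp only [map_add, map_smul, hφ, smul_eq_mul, ← mul_add]
    rw [one_div, inv_mul_eq_div, le_div_iff₀ (by positivity)]
    rcases le_total (e δ p.1) (e δ p.2) with h4 | h4
    · rw [max_eq_right h4]
      linarith [hr p.2 (Or.inl ⟨p.1, ⟨(h3 p hp).1, h4⟩, rfl⟩), h2 p.2, h1 (x p.1)]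
    · rw [max_eq_left h4]
      linarith [hr p.1 (Or.inr ⟨p.2, ⟨(h3 p hp).2, h4⟩, rfl⟩), h2 p.1, h1 (x p.2)]

lemma zero2 [Nonempty X] (i : X → V) : 0 ∈ sp i 2 := by
  simpa using mem2 i (Classical.arbitrary X) (Classical.arbitrary X) (a := 0) (b := 0)
    (by simp) (by simp)

lemma Free.second (h : Free i) {Z : Set V} (hZ : sp i 2 ⊆ Z) (H : CompactlyCoherentSpace Z) :
    SecondCountableTopology X := by
  by_contra hX
  have : Nonempty X := by_contra fun h => hX (by rw [not_nonempty_iff] at h; infer_instance)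
  obtain ⟨ι, a, h1, h2, h3⟩ := h.nonsep hX
  refine h.notk a 0 (fun k => hZ (h1 k)) (hZ (zero2 i)) h2 ?_ (fun B hB => ?_) H
  · rintro ⟨k, hk⟩
    obtain ⟨φ, g, -, h4⟩ := h3 _ (countable_singleton k)
    have := h4 k rfl
    rw [hk, map_zero] at this
    linarith [Nat.cast_nonneg (α := ℝ) (g k)]
  · obtain ⟨C, h4, h5, h6⟩ := hB.exists_subset_countable_infinite
    obtain ⟨φ, g, h7, h8⟩ := h3 C h5
    refine ⟨φ, fun ⟨M, hM⟩ => h6 ((h7 ⌈M⌉₊).subset fun k hk => ⟨hk, ?_⟩)⟩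
    have := hM ⟨_, ⟨k, h4 hk, rfl⟩, rfl⟩
    exact Nat.cast_le (α := ℝ).1 (by linarith [h8 k hk, Nat.le_ceil M])

lemma Free.lc (h : Free i) {Z : Set V} (hZ : sp i 2 ⊆ Z) (H : CompactlyCoherentSpace Z) :
    WeaklyLocallyCompactSpace X := by
  refine ⟨fun x => by_contra fun hx => ?_⟩
  have h1 (n : ℕ) : ∃ d : ℕ → X, (∀ k, dist (d k) x ≤ 1 / ((n : ℝ) + 1)) ∧
      ∀ z, ∃ U ∈ 𝓝 z, {k | d k ∈ U}.Finite := by
    by_contra! h1
    refine hx ⟨_, IsSeqCompact.isCompact fun d hd => ?_,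
      Metric.closedBall_mem_nhds x (Nat.one_div_pos_of_nat (n := n))⟩
    obtain ⟨z, hz⟩ := h1 d hd
    have : MapClusterPt z atTop d := mapClusterPt_iff_frequently.2 fun U hU =>
      Nat.frequently_atTop_iff_infinite.2 (hz U hU)
    exact ⟨z, Metric.isClosed_closedBall.mem_of_mapClusterPt this (.of_forall hd),
      this.tendsto_subseq⟩
  choose d h1 h2 using h1
  obtain ⟨U₀, h3, h4⟩ := h2 0 x
  obtain ⟨N, hN⟩ := h4.bddAbove
  have ht (m : ℕ) : |1 / ((m : ℝ) + 1)| ≤ 2 := by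
    rw [abs_of_pos Nat.one_div_pos_of_nat, div_le_iff₀ (by positivity)]
    linarith [Nat.cast_nonneg (α := ℝ) m]
  refine h.notk (fun p : ℕ × ℕ => (1 : ℝ) • i (d p.1 p.2) +
    (1 / ((p.2 : ℝ) + 1)) • i (d 0 (p.1 + N + 1))) (i x) (fun p => hZ (mem2 i _ _ (by simp) (ht _)))
    (hZ (by simpa using mem2 i x x (a := 1) (b := 0) (by simp) (by simp)))
    (mem_closure_iff_nhds.2 fun U hU => ?_) ?_ (fun B hB => ?_) H
  · have := h.1
    have h5 : (fun q : V × V => q.1 + q.2) ⁻¹' U ∈ 𝓝 (i x, 0) :=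
      continuous_add.continuousAt.preimage_mem_nhds (by simpa using hU)
    obtain ⟨U₁, h6, U₂, h7, h8⟩ := mem_nhds_prod_iff.1 h5
    obtain ⟨ε, h9, h10⟩ := Metric.mem_nhds_iff.1 (h.2.2.1.continuousAt h6)
    obtain ⟨n, hn⟩ := exists_nat_one_div_lt h9
    obtain ⟨k, hk⟩ := h.small h7 (d 0 (n + N + 1))
    exact ⟨_, h8 (a := (_, _)) ⟨by simpa using h10 ((h1 n k).trans_lt hn), hk k le_rfl⟩, (n, k), rfl⟩
  · rintro ⟨p, hp⟩
    obtain ⟨φ, hφ⟩ := h.fn ⟨fun y => dist y x, by fun_prop⟩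
    have := congrArg φ hp
    simp only [map_add, map_smul, hφ, smul_eq_mul, ContinuousMap.coe_mk, dist_self] at this
    have h5 : d 0 (p.1 + N + 1) ≠ x := fun h5 => by
      have := hN (show d 0 (p.1 + N + 1) ∈ U₀ from h5 ▸ mem_of_mem_nhds h3)
      omega
    have := mul_pos (show (0 : ℝ) < 1 / ((p.2 : ℝ) + 1) by positivity) (dist_pos.2 h5)
    linarith [dist_nonneg (x := d p.1 p.2) (y := x)]
  · by_cases h5 : (Prod.fst '' B).Finite
    · obtain ⟨n, hn⟩ : ∃ n, {p ∈ B | p.1 = n}.Infinite := by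
        by_contra! h6
        exact hB ((h5.biUnion fun n _ => h6 n).subset fun p hp =>
          mem_biUnion (mem_image_of_mem _ hp) ⟨hp, rfl⟩)
      obtain ⟨f, h6, h7⟩ := big _ (h2 n) fun k => (k : ℝ)
      obtain ⟨φ, hφ⟩ := h.fn f
      refine ⟨φ, fun ⟨M, hM⟩ => hn (((finite_singleton n).prod (finite_Iic ⌈M⌉₊)).subset ?_)⟩
      rintro ⟨n, k⟩ ⟨hk, rfl⟩
      have := hM ⟨_, ⟨_, hk, rfl⟩, rfl⟩
      simp only [map_add, map_smul, hφ, smul_eq_mul] at this
      have := mul_nonneg (show (0 : ℝ) ≤ 1 / ((k : ℝ) + 1) by positivity) (h6 (d 0 (n + N + 1)))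
      exact ⟨rfl, Nat.cast_le (α := ℝ).1 (by linarith [h7 k, Nat.le_ceil M])⟩
    · choose! k hk using fun n (h : n ∈ Prod.fst '' B) => show ∃ k, (n, k) ∈ B from
        h.elim fun p h => ⟨p.2, h.2 ▸ h.1⟩
      obtain ⟨f, h6, h7⟩ := big (fun n => d 0 (n + N + 1)) (fun z => (h2 0 z).imp fun U h =>
        ⟨h.1, h.2.preimage (f := (· + N + 1)) fun _ _ _ _ h => by simpa using h⟩)
        fun n => n * (k n + 1)
      obtain ⟨φ, hφ⟩ := h.fn f
      refine ⟨φ, fun ⟨M, hM⟩ => h5 ((finite_Iic ⌈M⌉₊).subset fun n hn => ?_)⟩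
      have := hM ⟨_, ⟨_, hk n hn, rfl⟩, rfl⟩
      simp only [map_add, map_smul, hφ, smul_eq_mul] at this
      have h8 := (le_div_iff₀ (by positivity)).2 (h7 n)
      rw [← one_div_mul_eq_div] at h8
      exact Nat.cast_le (α := ℝ).1 (by linarith [Nat.le_ceil M, h6 (d n (k n))])

lemma Free.kspace (h : Free i) [SecondCountableTopology X] [WeaklyLocallyCompactSpace X] (n : ℕ) :
    CompactlyCoherentSpace (sp i n) := by
  classical
  have := h.t2
  have h5 := h.surj
  rcases isEmpty_or_nonempty X with _ | ⟨⟨x₀⟩⟩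
  · have := h5.subsingleton
    infer_instance
  have : Nonempty X := ⟨x₀⟩
  obtain ⟨_, _, h1, h2⟩ := h
  letI := (FB X).topology
  haveI : IsTopologicalAddGroup (X →₀ ℝ) := (FB X).toAddGroupFilterBasis.isTopologicalAddGroup
  haveI : ContinuousSMul ℝ (X →₀ ℝ) := (FB X).continuousSMul
  obtain ⟨g, hg, -⟩ := h2 _ _ single_cont
  have h6 (v : X →₀ ℝ) : g (linearCombination ℝ i v) = v := by
    induction v using Finsupp.induction_linear with
    | zero => simp
    | add f g h1 h2 => simp [h1, h2]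
    | single y c => simp [hg]
  have h7 (w : V) : linearCombination ℝ i (g w) = w := by
    obtain ⟨v, rfl⟩ := h5 w
    rw [h6]
  refine .of_isClosed fun A hA => isClosed_induced_iff.2 ⟨(↑) '' A, ?_,
    preimage_image_eq _ Subtype.val_injective⟩
  have hF (K : Set X) (hK : IsCompact K) : ∃ F' ⊆ (↑) '' A, IsClosed F' ∧
      ∀ v ∈ (↑) '' A, (∀ x ∉ K, g v x = 0) → v ∈ F' := by
    let φ : (Fin n → ℝ) × (Fin n → X) → V := fun p => ∑ j, p.1 j • i (p.2 j)
    have h8 : IsCompact (φ '' (pi univ fun _ => Icc (-n : ℝ) n) ×ˢ pi univ fun _ => insert x₀ K) :=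
      ((isCompact_univ_pi fun _ => isCompact_Icc).prod
        (isCompact_univ_pi fun _ => hK.insert x₀)).image (by fun_prop)
    set C := φ '' (pi univ fun _ => Icc (-n : ℝ) n) ×ˢ pi univ fun _ => insert x₀ K
    have h9 : IsCompact ((↑) ⁻¹' C : Set (sp i n)) := by
      rw [Subtype.isCompact_iff, image_preimage_eq_of_subset]
      · exact h8
      · rintro _ ⟨p, hp, rfl⟩
        exact ⟨⟨_, p.1, p.2, fun j => abs_le.2 (hp.1 j trivial), rfl⟩, rfl⟩
    have := isCompact_iff_compactSpace.1 h9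
    refine ⟨_, ?_, (((hA _ h9).isCompact.image continuous_subtype_val).image
      continuous_subtype_val).isClosed, ?_⟩
    · rintro _ ⟨_, ⟨z, hz, rfl⟩, rfl⟩
      exact ⟨_, hz, rfl⟩
    · rintro _ ⟨⟨_, l, x, h10, rfl⟩, hz, rfl⟩ h11
      refine ⟨_, ⟨⟨_, (fun j => if x j ∈ K then l j else 0, fun j => if x j ∈ K then x j else x₀),
        ⟨fun j _ => ?_, fun j _ => ?_⟩, ?_⟩, hz, rfl⟩, rfl⟩
      · dsimp only
        split_ifs
        exacts [abs_le.1 (h10 j), by simp]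
      · dsimp only
        split_ifs with h
        exacts [Or.inr h, Or.inl rfl]
      · refine Function.LeftInverse.injective h7 (Finsupp.ext fun y => ?_)
        by_cases hy : y ∈ K
        · simp only [φ, map_sum, map_smul, hg, finsetSum_apply]
          refine Finset.sum_congr rfl fun j _ => ?_
          split_ifs with h
          · rfl
          · simp [single_eq_of_ne (show y ≠ x j from fun h' => h (h' ▸ hy))]
        · rw [h11 y hy]
          simp only [φ, map_sum, map_smul, hg, finsetSum_apply]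
          refine Finset.sum_eq_zero fun j _ => ?_
          split_ifs with h
          · simp [single_eq_of_ne (show y ≠ x j from fun h' => hy (h' ▸ h))]
          · simp
  generalize Subtype.val '' A = F at hF
  refine isOpen_compl_iff.1 (isOpen_iff_mem_nhds.2 fun v hv => ?_)
  let K := CompactExhaustion.choice X
  let T : ℕ → (X → ℝ) → Set V := fun m φ => insert 0 ((fun p : X × X × ℝ × ℝ =>
    p.2.2.1 • i p.1 + p.2.2.2 • i p.2.1) '' (K m ×ˢ K (m + 1) ×ˢ Icc (-1) 1 ×ˢ Icc (-2) 2 ∩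
      ({p | |p.2.2.1 + p.2.2.2| ≤ φ p.1} ∩ {p | dist p.2.1 p.1 ≤ φ p.1})))
  let P : Set V → Prop := fun D => IsCompact D ∧ D ⊆ Fᶜ ∧
    ∃ K, IsCompact K ∧ ∀ w ∈ D, ∀ x ∉ K, g w x = 0
  have h8 (m D) (hD : P D) : ∃ φ : X → ℝ, (∀ x, 0 < φ x) ∧ P (D + T m φ) := by
    obtain ⟨h8, h9, L, hL, h10⟩ := hD
    have hL' := hL.union (K.isCompact (m + 1))
    obtain ⟨F', h11, h12, h13⟩ := hF _ hL'
    obtain ⟨U, hU, h14⟩ := compact_open_separated_add_right h8 h12.isOpen_compl
      (h9.trans (compl_subset_compl.2 h11))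
    obtain ⟨s, s0, -, s2, s3⟩ := radius isClosed_univ h1.continuousOn hU
    have hs : Continuous s := (LipschitzWith.of_le_add s2).continuous
    have h15 : ∀ w ∈ D + T m fun x => s x / 2, ∀ x ∉ L ∪ K (m + 1), g w x = 0 := by
      rintro _ ⟨w, hw, _, rfl | ⟨p, hp, rfl⟩, rfl⟩ x hx
      · simpa using h10 w hw x fun h => hx (Or.inl h)
      · simp [hg, h10 w hw x fun h => hx (Or.inl h), single_eq_of_ne
          (show x ≠ p.1 from fun h => hx (Or.inr (h ▸ K.subset_succ m hp.1.1))), single_eq_of_ne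
          (show x ≠ p.2.1 from fun h => hx (Or.inr (h ▸ hp.1.2.1)))]
    refine ⟨fun x => s x / 2, fun x => half_pos (s0 x), h8.add (IsCompact.insert (IsCompact.image
      (((K.isCompact m).prod ((K.isCompact _).prod (isCompact_Icc.prod isCompact_Icc))).inter_right
        ((isClosed_le (by fun_prop) (by fun_prop)).inter (isClosed_le (by fun_prop) (by fun_prop))))
      (by fun_prop)) _), fun w hw h => h14 (add_subset_add_left ?_ hw) (h13 w h (h15 w hw)),
      _, hL', h15⟩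
    rintro _ (rfl | ⟨p, hp, rfl⟩)
    · exact mem_of_mem_nhds hU
    · exact s3 p.1 _ trivial _ trivial _ _ (by simpa using s0 _)
        (hp.2.2.trans_lt (half_lt_self (s0 _))) ((abs_le.2 hp.1.2.2.1).trans one_le_two)
        (hp.2.1.trans_lt (half_lt_self (s0 _)))
  choose! φ φ0 φ1 using h8
  let D : ℕ → Set V := fun k => Nat.rec {v} (fun k D => D + T k.unpair.2 (φ k.unpair.2 D)) k
  have h9 (k) : P (D k) := by
    induction k with
    | zero => exact ⟨isCompact_singleton, singleton_subset_iff.2 hv, _,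
        (g v).support.finite_toSet.isCompact, fun w hw x hx => hw ▸ notMem_support_iff.1 hx⟩
    | succ k ih => exact φ1 _ _ ih
  choose δ δ0 δ1 using fun x => Metric.nhds_basis_closedBall.mem_iff.1
    (mem_interior_iff_mem_nhds.1 (K.subset_interior_succ _ (K.mem_find x)))
  have h10 := (FB X).toAddGroupFilterBasis.mem_nhds_zero (U := Wd fun n x =>
    min (min 1 (δ x)) (φ (K.find x) (D (n.pair (K.find x))) x))
    ⟨_, fun n x => lt_min (lt_min one_pos (δ0 x)) (φ0 _ _ (h9 _) x), rfl⟩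
  refine mem_of_superset (((g.continuous.sub continuous_const).tendsto' v 0 (sub_self _)) h10) ?_
  rintro w ⟨N, f, h11, h12⟩
  choose x y a b e1 e2 e3 e4 using h11
  simp only [le_min_iff] at e2 e3
  let u : ℕ → V := fun k => if k.unpair.1 < N ∧ k.unpair.2 = K.find (x k.unpair.1) then
    linearCombination ℝ i (f k.unpair.1) else 0
  have h13 (k) : v + ∑ j ∈ Finset.range k, u j ∈ D k := by
    induction k with
    | zero => simp [D]
    | succ k ih =>
      rw [Finset.sum_range_succ, ← add_assoc]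
      refine add_mem_add ih ?_
      simp only [u]
      split_ifs with h
      · have h13 := (e2 k.unpair.1).2
        have h14 := (e3 k.unpair.1).2
        rw [← h.2, Nat.pair_unpair] at h13 h14
        refine Or.inr ⟨(x _, y _, a _, b _), ⟨⟨h.2 ▸ K.mem_find _, h.2 ▸ δ1 _ (e3 _).1.2,
          abs_le.1 (e1 _), abs_le.1 ?_⟩, h13, h14⟩, by simp [e4]⟩
        linarith [abs_sub (a k.unpair.1 + b k.unpair.1) (a k.unpair.1), add_sub_cancel_left
          (a k.unpair.1) (b k.unpair.1) ▸ abs_sub (a k.unpair.1 + b k.unpair.1) (a k.unpair.1),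
          e1 k.unpair.1, (e2 k.unpair.1).1.1]
      · exact Or.inl rfl
  obtain ⟨M, hM⟩ := ((Finset.range N).image fun n => n.pair (K.find (x n))).exists_nat_subset_range
  refine (h9 M).2.1 (cast (congrArg (· ∈ D M) ?_) (h13 M))
  rw [← eq_sub_iff_add_eq', ← h7 (w - v), map_sub g, show g w - g v = _ from h12, map_sum]
  refine (Finset.sum_of_injOn (fun n => n.pair (K.find (x n))) (fun _ _ _ _ h => (Nat.pair_eq_pair.1 h).1)
    (fun n hn => hM (Finset.mem_image_of_mem _ hn)) (fun k _ hk => if_neg fun h => hk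
      ⟨k.unpair.1, by simpa using h.1, by simp only [← h.2, Nat.pair_unpair]⟩) fun n hn => ?_).symm
  simp [u, Finset.mem_range.1 hn]

lemma Free.tight (h : Free i) [SecondCountableTopology X] (n : ℕ) (A : Set V) (hA : A ⊆ sp i n) :
    ∃ C ⊆ A, C.Countable ∧ A ⊆ closure C := by
  obtain ⟨_, _, h1, -⟩ := h
  let φ : (Fin n → ℝ) × (Fin n → X) → V := fun p => ∑ j, p.1 j • i (p.2 j)
  have hφ : Continuous φ := by fun_prop
  obtain ⟨C, h2, h3, h4⟩ := (TopologicalSpace.IsSeparable.of_separableSpace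
    (φ ⁻¹' A)).exists_countable_dense_subset
  refine ⟨φ '' C, image_subset_iff.2 h2, h3.image _, fun v hv => ?_⟩
  obtain ⟨l, x, -, rfl⟩ := hA hv
  exact image_closure_subset_closure_image hφ ⟨(l, x), h4 hv, rfl⟩

end Pool.Agent.H.MP_24cde2_gt
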